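import Mathlib
import Pool.Agent.W743.GV.Stm

/-! Project GV (helper743), part ODE (helper347). -/

set_option autoImplicit false

open Set Filter Topology
open scoped ContDiff

namespace Pool.Agent.W347.GV

open Pool.Agent.W743.GV

noncomputable section

/-- the determinant -/
def Dn (x : ℝ × ℝ × ℝ) : ℝ :=
  -36 * x.1 ^ 2 + 4 * x.2.2 * (3 * (x.2.1 + 1) * x.1 - x.2.2 ^ 2)

def N1 (x : ℝ × ℝ × ℝ) : ℝ :=
  6 * x.1 * (x.2.1 + 1) - 2 * x.2.2 * (3 * x.1 + x.2.2)

def N2 (x : ℝ × ℝ × ℝ) : ℝ :=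
  -6 * x.1 * (3 * x.1 + x.2.2) + 2 * (x.2.1 + 1) * (3 * (x.2.1 + 1) * x.1 - x.2.2 ^ 2)

/-- the vector field -/
def vf (x : ℝ × ℝ × ℝ) : ℝ × ℝ × ℝ := (1, N1 x / Dn x, N2 x / Dn x)

theorem cD : ContDiff ℝ ∞ Dn := by unfold Dn; fun_prop

theorem c1 : ContDiff ℝ ∞ N1 := by unfold N1; fun_prop

theorem c2 : ContDiff ℝ ∞ N2 := by unfold N2; fun_prop

theorem cv : ContDiffOn ℝ ∞ vf {x | Dn x ≠ 0} := by
  unfold vf
  refine contDiffOn_const.prodMk ((c1.contDiffOn.div cD.contDiffOn fun x hx => hx).prodMk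
    (c2.contDiffOn.div cD.contDiffOn fun x hx => hx))

theorem oD : IsOpen {x | Dn x ≠ 0} := isOpen_ne.preimage cD.continuous

theorem D0 : Dn (1, 1, 0) ≠ 0 := by unfold Dn; norm_num

theorem t_ODE : S_ODE := by
  have hv : ContDiffAt ℝ 1 vf (1, 1, 0) :=
    (cv.contDiffAt (oD.mem_nhds D0)).of_le (by exact_mod_cast le_top)
  obtain ⟨α, h0, ε, hε, hα⟩ :=
    hv.exists_forall_mem_closedBall_exists_eq_forall_mem_Ioo_hasDerivAt₀ (1 : ℝ)
  -- closeness
  have hcont : ContinuousAt α 1 := (hα 1 ⟨by linarith, by linarith⟩).continuousAt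
  have hcl : ∀ᶠ t in 𝓝 (1 : ℝ), dist (α t) (1, 1, 0) < 1 / 10 := by
    have := hcont.tendsto
    rw [h0] at this
    exact this.eventually (Metric.ball_mem_nhds _ (by norm_num))
  obtain ⟨ε', hε', hb⟩ := Metric.eventually_nhds_iff.1 hcl
  obtain ⟨d, hd, hd1, hd2, hd3⟩ : ∃ d : ℝ, 0 < d ∧ d < ε ∧ d < ε' ∧ d ≤ 1 / 20 := by
    refine ⟨min (min ε ε') (1 / 10) / 2, by positivity, ?_, ?_, ?_⟩
    · have := min_le_left (min ε ε') (1 / 10)
      have := min_le_left ε ε'
      linarith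
    · have := min_le_left (min ε ε') (1 / 10)
      have := min_le_right ε ε'
      linarith
    · have := min_le_right (min ε ε') (1 / 10)
      linarith
  have hI : ∀ t ∈ Icc (1 - d) (1 + d), t ∈ Ioo (1 - ε) (1 + ε) ∧ dist t 1 < ε' := by
    intro t ht
    refine ⟨⟨by linarith [ht.1], by linarith [ht.2]⟩, ?_⟩
    rw [Real.dist_eq, abs_lt]
    exact ⟨by linarith [ht.1], by linarith [ht.2]⟩
  have hαd : ∀ t ∈ Icc (1 - d) (1 + d), HasDerivAt α (vf (α t)) t := fun t ht => hα t (hI t ht).1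
  -- first component
  have hd1 : ∀ t ∈ Ioo (1 - ε) (1 + ε), HasDerivAt (fun t => (α t).1) 1 t := by
    intro t ht
    have := (ContinuousLinearMap.fst ℝ ℝ (ℝ × ℝ)).hasFDerivAt.comp_hasDerivAt t (hα t ht)
    exact this
  have hfst : ∀ t ∈ Icc (1 - d) (1 + d), (α t).1 = t := by
    intro t ht
    have h1 := isOpen_Ioo.is_const_of_deriv_eq_zero (f := fun t => (α t).1 - t)
      (s := Ioo (1 - ε) (1 + ε)) isPreconnected_Ioo
      (fun t ht => ((hd1 t ht).sub (hasDerivAt_id t)).differentiableAt.differentiableWithinAt)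
      (fun t ht => by
        have := ((hd1 t ht).sub (hasDerivAt_id t)).deriv
        rw [sub_self] at this
        exact this) (hI t ht).1 (show (1 : ℝ) ∈ Ioo (1 - ε) (1 + ε) from ⟨by linarith, by linarith⟩)
    simp only [h0] at h1
    linarith
  have hb' : ∀ t ∈ Icc (1 - d) (1 + d), HasDerivAt (fun t => (α t).2.1) (N1 (α t) / Dn (α t)) t := by
    intro t ht
    have := ((ContinuousLinearMap.fst ℝ ℝ ℝ).comp
      (ContinuousLinearMap.snd ℝ ℝ (ℝ × ℝ))).hasFDerivAt.comp_hasDerivAt t (hαd t ht)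
    exact this
  have hf' : ∀ t ∈ Icc (1 - d) (1 + d), HasDerivAt (fun t => (α t).2.2) (N2 (α t) / Dn (α t)) t := by
    intro t ht
    have := ((ContinuousLinearMap.snd ℝ ℝ ℝ).comp
      (ContinuousLinearMap.snd ℝ ℝ (ℝ × ℝ))).hasFDerivAt.comp_hasDerivAt t (hαd t ht)
    exact this
  have hclose : ∀ t ∈ Icc (1 - d) (1 + d), |(α t).2.1 - 1| < 1 / 10 ∧ |(α t).2.2| < 1 / 10 := by
    intro t ht
    have h1 := hb (hI t ht).2
    rw [Prod.dist_eq, max_lt_iff, Prod.dist_eq, max_lt_iff] at h1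
    obtain ⟨-, h2, h3⟩ := h1
    simp only [Real.dist_eq, sub_zero] at h2 h3
    exact ⟨h2, h3⟩
  have hDn : ∀ t ∈ Icc (1 - d) (1 + d), Dn (α t) ≠ 0 := by
    intro t ht
    obtain ⟨h1, h2⟩ := hclose t ht
    rw [abs_lt] at h1 h2
    unfold Dn
    rw [hfst t ht]
    have t1 := ht.1
    have t2 := ht.2
    generalize (α t).2.1 = b at *
    generalize (α t).2.2 = f at *
    apply ne_of_lt
    have e1 : 3 * (b + 1) * t ≤ 7 := by nlinarith
    have e2 : 0 ≤ 3 * (b + 1) * t := by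
      apply mul_nonneg <;> linarith
    have e3 : f ^ 2 ≤ 1 / 100 := by nlinarith
    have e4 : (4 * f) * (3 * (b + 1) * t - f ^ 2) ≤ 4 * (1 / 10) * 8 := by
      have : |(4 * f) * (3 * (b + 1) * t - f ^ 2)| ≤ 4 * (1 / 10) * 8 := by
        rw [abs_mul]
        apply mul_le_mul
        · rw [abs_le]; constructor <;> linarith
        · rw [abs_le]; constructor <;> nlinarith
        · positivity
        · norm_num
      exact (abs_le.1 this).2
    nlinarith
  have hsm : ContDiffOn ℝ ∞ α (Icc (1 - d) (1 + d)) := by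
    refine ODE.contDiffOn_enat_Icc_of_hasDerivWithinAt (n := ⊤) (f := fun _ x => vf x)
      (u := {x | Dn x ≠ 0}) ?_ (fun t ht => (hαd t ht).hasDerivWithinAt) (fun t ht => hDn t ht)
    have : Function.uncurry (fun (_ : ℝ) x => vf x) = fun p => vf p.2 := rfl
    rw [this]
    exact cv.comp contDiffOn_snd fun p hp => hp.2
  have hJ : ∀ t ∈ J d, t ∈ Icc (1 - d) (1 + d) := fun t ht => Ioo_subset_Icc_self ht
  refine ⟨d, fun t => (α t).2.1, fun t => (α t).2.2, hd, by linarith, ?_, ?_, ?_, ?_, ?_, ?_, ?_⟩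
  · simp only [h0]
  · simp only [h0]
  · exact (contDiff_fst.comp contDiff_snd).comp_contDiffOn (hsm.mono fun t ht => hJ t ht)
  · exact (contDiff_snd.comp contDiff_snd).comp_contDiffOn (hsm.mono fun t ht => hJ t ht)
  · intro P hP
    have h1 := hDn P (hJ P hP)
    rw [(hb' P (hJ P hP)).deriv, (hf' P (hJ P hP)).deriv]
    have h2 := hfst P (hJ P hP)
    rw [← mul_div_assoc, ← mul_div_assoc, ← sub_div, div_eq_iff h1]
    unfold N1 N2 Dn
    rw [h2]
    ring
  · intro P hP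
    have h1 := hDn P (hJ P hP)
    rw [(hb' P (hJ P hP)).deriv, (hf' P (hJ P hP)).deriv]
    have h2 := hfst P (hJ P hP)
    rw [← mul_div_assoc, ← mul_div_assoc, ← sub_div, div_eq_iff h1]
    unfold N1 N2 Dn
    rw [h2]
    ring
  · intro s hs P hP
    obtain ⟨h1, h2⟩ := hclose P (hJ P hP)
    rw [abs_lt] at h1 h2
    unfold MM
    simp only
    have p1 := (hJ P hP).1
    have p2 := (hJ P hP).2
    have s1 := (hJ s hs).1
    have s2 := (hJ s hs).2
    generalize (α P).2.1 = b at *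
    generalize (α P).2.2 = f at *
    have e1 : (b - s) ^ 2 ≤ 4 / 100 := by nlinarith
    have e2 : (f - (b - s)) ^ 2 ≤ 9 / 100 := by nlinarith
    nlinarith

end

end Pool.Agent.W347.GV
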